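import Pool.Agent.Helper28.T3E.StE
import Pool.Agent.Helper14.TT.StF

/-!
# Project T3E: lower bound and core, even characters
-/

set_option autoImplicit false

namespace Pool.Agent.Helper28.T3E

open Pool.Agent.Helper14.CV (Homog EqC act Tl G0)
open Pool.Agent.Helper14.W3 Pool.Agent.Helper78.W3
open Pool.Agent.Helper76.TX (eX Sg RootNum)
open Pool.Agent.Helper14.TT (eXb IsTw)
open Pool.Agent.Helper14.T3

/-- The conclusion of X2E. -/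
def StX2 : Prop := ∀ (D r s : ℕ) (G : ℤ → ℤ → ZMod 3), 1 < D → Squarefree D →
  D % 12 = 5 → 1 ≤ r → 1 ≤ s → Sym3 (r + 1) (s + 1) G → (∀ f, (pf G f : Fn3 (3 ^ r) (3 ^ s)) ∈ Wd3 2) →
  eXb D (3 ^ (r + 1)) G = (-1) ^ (r + 1) * (SE D : ZMod 3) ^ 2 *
    ((Qo : Module.End (ZMod 3) (Fn3 (3 ^ r) (3 ^ s))) (pf G 0)) 0 0

/-- ITRE (from X2, and the inputs of the iteration of W3, see `Pool.Agent.Helper76.W3.hItr`, module `M_Itr`: REL, HKB, HK2, HK7, LOW0, LW1, LD). For `h = Bo^j T_2^i G`, `d = deg G`: `F_f(h) ∈ Wd3 (d - i - 4j)`; `i = 2e`: `F_0(h) ≡ Qo^e Lo^j F_0`, `i = 2e+1`: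
`F_0(h) ≡ -oN (dX - dY) Qo^e Lo^j (F_1 - F_2)` modulo lower degree (exactly as in the proof of ITR). Apply X2 to `h` when `d ≤ i + 4j + 2`: `evTb D m G i j = u (Qo F_0(h))(0,0)`, `u = (-1)^(r+1) S²`; `Qo` kills `Wd3 1`, and `(Qo (oN F))(0,0) = (Qo F)(0,0)` for `F` of degree at most 2
(`dX oN ≡ -oN dX`). -/
def StITRE : Prop := StX2 → S3Rel → S3HkB → S3Hk2 → (∀ i, S3Hk7 i) → S3Trm → S3Low0 → S3Lw1 → S3Ld → ∀ (D r s : ℕ) (G : ℤ → ℤ → ZMod 3) (d : ℕ), OkE D → 1 ≤ r → 1 ≤ s →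
  Sym3 (r + 1) (s + 1) G → (∀ f, (pf G f : Fn3 (3 ^ r) (3 ^ s)) ∈ Wd3 (d : ℤ)) → ∀ i j : ℕ,
  (d < i + 2 + 4 * j → evTb D (3 ^ (r + 1)) G i j = 0) ∧
  (i + 2 + 4 * j = d → i % 2 = 0 → evTb D (3 ^ (r + 1)) G i j = (-1) ^ (r + 1) * (SE D : ZMod 3) ^ 2 *
    ((Qo ^ (i / 2 + 1) * Lo ^ j : Module.End (ZMod 3) (Fn3 (3 ^ r) (3 ^ s))) (pf G 0)) 0 0) ∧
  (i + 2 + 4 * j = d → i % 2 = 1 → evTb D (3 ^ (r + 1)) G i j = -((-1) ^ (r + 1) * (SE D : ZMod 3) ^ 2 *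
    (((dX - dY) * Qo ^ (i / 2 + 1) * Lo ^ j : Module.End (ZMod 3) (Fn3 (3 ^ r) (3 ^ s)))
      (pf G 1 - pf G 2)) 0 0))

/-- The conclusion of ITRE. -/
def StIT : Prop := ∀ (D r s : ℕ) (G : ℤ → ℤ → ZMod 3) (d : ℕ), OkE D → 1 ≤ r → 1 ≤ s →
  Sym3 (r + 1) (s + 1) G → (∀ f, (pf G f : Fn3 (3 ^ r) (3 ^ s)) ∈ Wd3 (d : ℤ)) → ∀ i j : ℕ,
  (d < i + 2 + 4 * j → evTb D (3 ^ (r + 1)) G i j = 0) ∧
  (i + 2 + 4 * j = d → i % 2 = 0 → evTb D (3 ^ (r + 1)) G i j = (-1) ^ (r + 1) * (SE D : ZMod 3) ^ 2 *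
    ((Qo ^ (i / 2 + 1) * Lo ^ j : Module.End (ZMod 3) (Fn3 (3 ^ r) (3 ^ s))) (pf G 0)) 0 0) ∧
  (i + 2 + 4 * j = d → i % 2 = 1 → evTb D (3 ^ (r + 1)) G i j = -((-1) ^ (r + 1) * (SE D : ZMod 3) ^ 2 *
    (((dX - dY) * Qo ^ (i / 2 + 1) * Lo ^ j : Module.End (ZMod 3) (Fn3 (3 ^ r) (3 ^ s)))
      (pf G 1 - pf G 2)) 0 0))

/-- TRIE (from IT, LOW0, BB, LED, EX). Model: `Pool.Agent.Helper22.W3.hTri`, module `M_Tri`: the same symbols as in TRI for `(i + 2, j)` (`e = i/2 + 1`, `al = e + 3j + 1 < 3^r`, `be = e + j < 3^s`), the same leading forms with `(i' + 2, j')` for `(i', j')`, times the unit `(-1)^(r+1) S²` (`3 ∤ S`). -/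
def StTRIE : Prop := StIT → S3Low0 → S3Bb → S3Led → S3Ex → ∀ (D r s i j : ℕ), OkE D → 1 ≤ r → 1 ≤ s →
  i / 2 + 1 + 3 * j + 1 < 3 ^ r → i / 2 + 1 + j < 3 ^ s →
  ∃ G : ℤ → ℤ → ZMod 3, Sym3 (r + 1) (s + 1) G ∧ evTb D (3 ^ (r + 1)) G i j ≠ 0 ∧
    ∀ i' j' : ℕ, evTb D (3 ^ (r + 1)) G i' j' ≠ 0 →
      (i' + 4 * j' < i + 4 * j ∨ (i' + 4 * j' = i + 4 * j ∧ i' / 2 + j' ≤ i / 2 + j))

/-- The conclusion of TRIE. -/
def StTR : Prop := ∀ (D r s i j : ℕ), OkE D → 1 ≤ r → 1 ≤ s →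
  i / 2 + 1 + 3 * j + 1 < 3 ^ r → i / 2 + 1 + j < 3 ^ s →
  ∃ G : ℤ → ℤ → ZMod 3, Sym3 (r + 1) (s + 1) G ∧ evTb D (3 ^ (r + 1)) G i j ≠ 0 ∧
    ∀ i' j' : ℕ, evTb D (3 ^ (r + 1)) G i' j' ≠ 0 →
      (i' + 4 * j' < i + 4 * j ∨ (i' + 4 * j' = i + 4 * j ∧ i' / 2 + j' ≤ i / 2 + j))

/-- LIFE (from REL, LIFP, EX, UNI). Lifting symbols; models `S3Lif` (module `M_Lif` of W3) and `LifT` of project TT: the reduction of the lift has the same three functions as `g`, so it equals `g` up to a constant (UNI), and `evTb` (differences only) commutes with the reduction (`EqC.Tl_iter`, `EqC.Bo_iter`). -/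
def StLIFE : Prop := S3Rel → S3Lifp → S3Ex → S3Uni → ∀ (r s : ℕ) (g : ℤ → ℤ → ZMod 3), Sym3 (r + 1) (s + 1) g →
  ∃ G : ℤ → ℤ → ℤ, Sym3 (r + 1) (s + 1) G ∧ EqC (fun p q => ((G p q : ℤ) : ZMod 3)) g ∧
    ∀ D i j : ℕ, D ≠ 0 → ((evTb D (3 ^ (r + 1)) G i j : ℤ) : ZMod 3) = evTb D (3 ^ (r + 1)) g i j

/-- The conclusion of LIFE. -/
def StLI : Prop := ∀ (r s : ℕ) (g : ℤ → ℤ → ZMod 3), Sym3 (r + 1) (s + 1) g →
  ∃ G : ℤ → ℤ → ℤ, Sym3 (r + 1) (s + 1) G ∧ EqC (fun p q => ((G p q : ℤ) : ZMod 3)) g ∧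
    ∀ D i j : ℕ, D ≠ 0 → ((evTb D (3 ^ (r + 1)) G i j : ℤ) : ZMod 3) = evTb D (3 ^ (r + 1)) g i j

/-- UNBE. Back to `Γ₀(3^n)`; models `S3Unb` (`M_Unb` of W3) and `UnbT` of project TT. -/
def StUNBE : Prop := ∀ (D r s : ℕ) (G : ℤ → ℤ → ℤ), D ≠ 0 → Sym3 r s G →
  Sym3 0 (r + s) (fun p q => ((G (3 ^ r * p) q : ℤ) : ℂ)) ∧
    ∀ i j : ℕ, evT D (fun p q => ((G (3 ^ r * p) q : ℤ) : ℂ)) i j = ((evTb D (3 ^ r) G i j : ℤ) : ℂ)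

/-- CNTE. Counting the index set. With `q = 3^(k-1)`, `k ≥ 2`: `DE3 (2k) = q(q-1)/3`, `DE3 (2k+1) = q(q-1)` (induction; `DE3 4 = 2`, `DE3 5 = 6`). The index set is two copies (parity of `i`) of `{(e, j) : e + 3j + 2 < q}`, of size `∑_{j < q/3} (q - 2 - 3j) = q(q-1)/6`, resp. of
`{(e, j) : e + 3j + 2 < 3q, e + j + 1 < q}`, where the first condition follows from the second, of size `q(q-1)/2`. Model: `M_Cnt` of W3 (Helper72). -/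
def StCNTE : Prop :=
  (∀ k : ℕ, 2 ≤ k → ((Finset.range (2 * 3 ^ k) ×ˢ Finset.range (3 ^ k)).filter fun t : ℕ × ℕ =>
    t.1 / 2 + 1 + 3 * t.2 + 1 < 3 ^ (k - 1) ∧ t.1 / 2 + 1 + t.2 < 3 ^ (k - 1)).card = DE3 (2 * k)) ∧
  (∀ k : ℕ, 2 ≤ k → ((Finset.range (2 * 3 ^ (k + 1)) ×ˢ Finset.range (3 ^ (k + 1))).filter
    fun t : ℕ × ℕ => t.1 / 2 + 1 + 3 * t.2 + 1 < 3 ^ k ∧ t.1 / 2 + 1 + t.2 < 3 ^ (k - 1)).card =
    DE3 (2 * k + 1))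

/-- The twisted values of the symbols of level `3^n` span a space of dimension at least `DE3 n`. -/
def StLBE : Prop := ∀ (D n : ℕ), OkE D → 4 ≤ n → ∃ G : Fin (DE3 n) → (ℤ → ℤ → ℂ),
  (∀ k, Sym3 0 n (G k)) ∧ LinearIndependent ℂ (fun k => evT D (G k))

/-- LBEOF. Model: `M_LBof` of W3 (`Pool.Agent.Helper60.W3.hLBof`) with `ev3` replaced by `evTb D`, `evT D`; `n = 2k ≥ 4`: `(r,s) = (k-1,k-1)`, `n = 2k+1 ≥ 5`: `(r,s) = (k,k-1)` (`r, s ≥ 1`). -/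
def StLBEOF : Prop := StTR → StLI → StUNBE → StCNTE → StLBE

/-- SGNE. Signs of the twisted path. Proof for `eX` (word empty), `G` a symbol of level `3^n`: the sum of the characters over `a < D` is `0`, so `eX D G = ∑_a χ(a) G a D`. `*`: `G (-a) D = G (D - a) D` (translation by `1`, fixes `∞`, no constant), `χ(-a) = χ(a)`.
`W = (0 -1; N 0)`, `N = 3^n`: `(G∘W)(a, D) = G(-D, N a)`; for `a` prime to `D` let `a'` be the inverse of `-N a` modulo `D`, `N a a' + 1 = -D d`; `γ = (-D, a'; N a, d)` has determinant `1` and is in `Γ₀(N)`, `γ ∞ = (-D, N a)`, `γ (a', D) = (0, -1)`; so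
`G(-D, N a) = G(1,0) + G(0,1) - G(a', D)`, and `χ(a) = χ(-N) χ(a') = χ(3)^n χ(a')`, `χ(3) = -1`; sum over `a`: `eX D (G∘W) = -(-1)^n eX D G`. Words: `T_2`, `Bo` commute with `W` and `*` up to constants and preserve symbols (`S3HkW`, `S3HkT`, `S3HkS`, `EqC.Tl`, `EqC.Bo`), `eX_congr`.
Model: SGN of project TT (module `M_Sgn`), CHS of this project for the character. -/
def StSGNE : Prop := S3HkS → S3HkW → S3HkT → StCHS → ∀ (D n : ℕ) (G : ℤ → ℤ → ℂ), OkE D → 2 ≤ n → Sym3 0 n G →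
  evT D (act 0 (-1) (3 ^ n) 0 G) = -(wE n • evT D G) ∧ evT D (act (-1) 0 0 1 G) = evT D G

/-- The conclusion of SGNE. -/
def StSG : Prop := ∀ (D n : ℕ) (G : ℤ → ℤ → ℂ), OkE D → 2 ≤ n → Sym3 0 n G →
  evT D (act 0 (-1) (3 ^ n) 0 G) = -(wE n • evT D G) ∧ evT D (act (-1) 0 0 1 G) = evT D G

/-- DECTE (from SG, COM, NRM, LVL). Every symbol of level `3^n` (`n ≥ 3`) has the same twisted values as a symbol of level `3^(n-1)` plus a new symbol with `W = -w`, `* = 1`, `w = wE n`. Model: module `M_B3a` of W3 (`S3B3a`; also DECT of project TT). `A = (G + G∘t + G∘t²)/3`, `B = G - A`,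
`C = (B + B∘σ + B∘σ²)/3`, `E = B - C`, `F = (E - w E∘W)/2`, `G1 = (F + F∘*)/2` is a `NewSym3S n w 1`; `A∘W` and `C` have level `3^(n-1)`; by SG `evT A = -w evT (A∘W)`, `evT E = evT F = evT G1`. `G0 = C - w A∘W`. -/
def StDECTE : Prop := StSG → S3Com → S3Nrm → S3Lvl → ∀ (D n : ℕ) (G : ℤ → ℤ → ℂ), OkE D → 3 ≤ n → Sym3 0 n G →
  ∃ G0 G1 : ℤ → ℤ → ℂ, Sym3 0 (n - 1) G0 ∧ NewSym3S n (wE n) 1 G1 ∧ evT D G = evT D G0 + evT D G1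

/-- The conclusion of DECTE. -/
def StDE : Prop := ∀ (D n : ℕ) (G : ℤ → ℤ → ℂ), OkE D → 3 ≤ n → Sym3 0 n G →
  ∃ G0 G1 : ℤ → ℤ → ℂ, Sym3 0 (n - 1) G0 ∧ NewSym3S n (wE n) 1 G1 ∧ evT D G = evT D G0 + evT D G1

/-- BASTE (from IND, HKS, CHS). Level 9: all twisted values vanish. Proof. `T_2` and `Bo` preserve symbols, so it is enough that `eX D G = 0`, and since `∑ χ = 0` it is enough that `G(a, D)` is the same for all `a` prime to `D`. Let `G'(p,q) = G(p, 3q)`, a symbol for the group of the matrices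
`(a 3b; 3c d)` (`(1 0; 0 3)⁻¹ Γ₀(9) (1 0; 0 3)`): for each such `γ` there is a constant with `G'(γ v) = G'(v) + k(γ)`, and `k = 0` for the generators of IND because each fixes a cusp (`A`: `(1,0)`, `B`: `(0,1)`, `C`: `(1,1)`, `C2`: `(-1,1)`, `-1` by homogeneity); by IND (left version) `G'∘γ = G'` away from the origin for all of them. For `a` prime to `D`:
`G(a, D) = G(3a, 3D) = G'(3a, D)`, and `(3a, D) = γ (0,1)` with `γ = (α, a, c, D)`, `α D - 9ac = 1` (`9a` is prime to `D`). So `G(a, D) = G'(0,1)`. -/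
def StBASTE : Prop := StIND → S3HkS → StCHS → ∀ (D : ℕ) (G : ℤ → ℤ → ℂ), OkE D → Sym3 0 2 G → evT D G = 0

/-- The conclusion of BASTE. -/
def StBA : Prop := ∀ (D : ℕ) (G : ℤ → ℤ → ℂ), OkE D → Sym3 0 2 G → evT D G = 0

/-- Upper bound (from project T3, general signs; even `n`: `S3UB` of W3). -/
def StUBE : Prop := ∀ n : ℕ, 3 ≤ n →
  ∃ Θ : NSS3 n (wE n) 1 →ₗ[ℂ] (Fin (de3 n) → ℂ), ∀ G : NSS3 n (wE n) 1, Θ G = 0 → EqC (G : ℤ → ℤ → ℂ) 0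

/-- COREE. A new symbol of level `3^n` (`W = -(-1)^n`, `* = 1`) whose twisted values vanish is constant. -/
def StCOREE : Prop := ∀ (D n : ℕ) (G : ℤ → ℤ → ℂ), OkE D → 3 ≤ n → NewSym3S n (wE n) 1 G →
  evT D G = 0 → EqC G 0

/-- COREOFE. For `n = 3` from UBE (`de3 3 = 0`). For `n ≥ 4` as in `M_CoreOf` of CV and TT: `V m = (XS3 m).map (evT D)`; `V 2 = 0` by BA, `V m ≤ V (m-1) ⊔ (NSS3 m (wE m) 1).map (evT D)` by DE, `finrank ((NSS3 m ..).map (evT D)) ≤ de3 m` by UBE (`evT_congr`), and `≤ de3 n - 1` if the core fails at `n`; sum up, against LBE.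
Model: `CoreTof` of project TT. -/
def StCOREOFE : Prop := StDE → StBA → StUBE → StLBE → StCOREE

/-- UBEOF, even `n`: `NewSym3S n 1 1 G` is `NewSym3 n G`, `de3 n = dd3 n` for even `n ≥ 4`. -/
def StUBEev : Prop := S3UB → ∀ n : ℕ, 3 ≤ n → n % 2 = 0 →
  ∃ Θ : NSS3 n (wE n) 1 →ₗ[ℂ] (Fin (de3 n) → ℂ), ∀ G : NSS3 n (wE n) 1, Θ G = 0 → EqC (G : ℤ → ℤ → ℂ) 0

/-- The theorem for even characters. -/
def StFINE : Prop := ∀ (D n : ℕ) (f : CuspForm (G0 (3 ^ n)) 2), OkE D → 3 ≤ n → IsNewform3 n f → RootNum (wE n) f →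
  (∃ L : ℂ → ℂ, IsTw D f L) ∧ ∀ L : ℂ → ℂ, IsTw D f L → L (1 / 2) ≠ 0

end Pool.Agent.Helper28.T3E
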