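import Pool.Agent.Helper28.T3E.Asm
import Pool.Agent.Helper76.T3.M_UBT3of
import Pool.Agent.Helper89.T3.M_BalS3
import Pool.Agent.Helper7.T3.M_E1S3
import Pool.Agent.Helper92.T3.M_DimES3
import Pool.Agent.Helper73.T3.M_O1S3
import Pool.Agent.Helper66.T3.M_RmapS3
import Pool.Agent.Helper94.T3.M_DimOS3
import Pool.Agent.Helper67.T3.M_DimFS3
import Pool.Agent.Helper86.T3.M_KerOS3
import Pool.Agent.Helper56.T3E.M_TDS
import Pool.Agent.Helper28.T3.Asm

/-!
# Project T3E: the core for even characters, without hypotheses; the conductors in positive proportion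
-/

set_option autoImplicit false

namespace Pool.Agent.Helper28.T3E

open Pool.Agent.Helper14.CV Pool.Agent.Helper14.W3 Pool.Agent.Helper78.W3 Pool.Agent.Helper14.T3

theorem ube : StUBE := by
  have plA := Pool.Agent.Helper98.W3.hPlA
  have plU := Pool.Agent.Helper7.W3.hPlU
  have edg := Pool.Agent.Helper36.W3.hEdg plA plU
  have far := Pool.Agent.Helper38.CV.hFar
  have dimO := Pool.Agent.Helper94.T3.hDimOS3
  have h := Pool.Agent.Helper76.T3.hUBT3eof Pool.Agent.Helper89.T3.hBalS3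
    (Pool.Agent.Helper7.T3.hE1S3 edg plA far) Pool.Agent.Helper92.T3.hDimES3
    (Pool.Agent.Helper73.T3.hO1S3 edg plA far) dimO
    (Pool.Agent.Helper86.T3.hKerOS3 Pool.Agent.Helper66.T3.hRmapS3 dimO
      Pool.Agent.Helper67.T3.hDimFS3)
  intro n hn
  have e1 : -w3 n = wE n := by
    unfold w3 wE
    rw [neg_neg]
  have e2 : Pool.Agent.Helper76.T3.dte3 n = de3 n := rfl
  have h' := h n hn
  rw [e1, e2] at h'
  exact h'

/-- A new symbol of level `3^n` with `W = -(-1)^n`, `* = 1` whose values on the twisted path vanish is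
constant. -/
theorem core : StCOREE := coreE ube

/-- `3 ∤ SE D` if `9 ∤ TD (3D)`. -/
theorem okE {D : ℕ} (h1 : 1 < D) (hs : Squarefree D) (h5 : D % 12 = 5)
    (h9 : ¬ (9 : ℤ) ∣ Pool.Agent.Helper28.T3.TD (3 * D)) : OkE D := by
  refine ⟨h1, hs, h5, fun h3 => h9 ?_⟩
  rw [Pool.Agent.Helper56.T3E.hTDS D h1 hs h5]
  obtain ⟨k, hk⟩ := h3
  exact ⟨-2 * (D : ℤ) * k, by rw [hk]; ring⟩

end Pool.Agent.Helper28.T3E
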