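import Pool.Agent.Helper10.CV.M_N1
import Pool.Agent.Helper10.W3.M_P2
import Pool.Agent.Helper10.W3.M_Tre
import Pool.Agent.Helper10.W3.M_Trq
import Pool.Agent.Helper16.T3E.M_DECTE
import Pool.Agent.Helper16.W3.M_HkW
import Pool.Agent.Helper16.W3.M_SubA
import Pool.Agent.Helper2.T3E.M_LBEOF
import Pool.Agent.Helper2.T3E.M_SGNE
import Pool.Agent.Helper2.W3.M_CoreOf
import Pool.Agent.Helper22.W3.M_Ev
import Pool.Agent.Helper22.W3.M_Tri
import Pool.Agent.Helper24.W3.M_Exp
import Pool.Agent.Helper24.W3.M_UBof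
import Pool.Agent.Helper25.T3E.M_CHS
import Pool.Agent.Helper25.W3.M_KerO
import Pool.Agent.Helper25.W3.M_SubB
import Pool.Agent.Helper28.W3.M_E1
import Pool.Agent.Helper29.W3.M_HkT
import Pool.Agent.Helper29.W3.M_Low0
import Pool.Agent.Helper32.W3.M_Uni
import Pool.Agent.Helper34.T3E.M_ITRE
import Pool.Agent.Helper34.W3.M_DimE
import Pool.Agent.Helper34.W3.M_Unb
import Pool.Agent.Helper36.W3.M_Edg
import Pool.Agent.Helper36.W3.M_Hk2
import Pool.Agent.Helper36.W3.M_N3
import Pool.Agent.Helper37.W3.M_Lw1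
import Pool.Agent.Helper37.W3.M_Rmap
import Pool.Agent.Helper38.CV.M_Far
import Pool.Agent.Helper42.T3E.M_QUA
import Pool.Agent.Helper43.W3.M_Hk7_0
import Pool.Agent.Helper45.W3.M_N4
import Pool.Agent.Helper47.W3.M_Hk7_1
import Pool.Agent.Helper47.W3.M_Hk7_2
import Pool.Agent.Helper47.W3.M_Nrm
import Pool.Agent.Helper53.T3E.M_CNTE
import Pool.Agent.Helper53.W3.M_HkS
import Pool.Agent.Helper55.CV.M_Fex
import Pool.Agent.Helper6.T3E.M_RB
import Pool.Agent.Helper6.W3.M_Nf
import Pool.Agent.Helper60.T3E.M_IND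
import Pool.Agent.Helper60.W3.M_LBof
import Pool.Agent.Helper61.W3.M_P5
import Pool.Agent.Helper62.W3.M_Led
import Pool.Agent.Helper63.T3E.M_UBEev
import Pool.Agent.Helper63.W3.M_Rel
import Pool.Agent.Helper66.W3.M_Lif
import Pool.Agent.Helper67.W3.M_N2
import Pool.Agent.Helper67.W3.M_O1
import Pool.Agent.Helper69.W3.M_DimO
import Pool.Agent.Helper69.W3.M_HkF
import Pool.Agent.Helper7.T3E.M_LIFE
import Pool.Agent.Helper7.W3.M_Hk
import Pool.Agent.Helper7.W3.M_Ld
import Pool.Agent.Helper7.W3.M_PlU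
import Pool.Agent.Helper71.T3E.M_UNBE
import Pool.Agent.Helper71.W3.M_DimF
import Pool.Agent.Helper71.W3.M_Final
import Pool.Agent.Helper72.W3.M_B3a
import Pool.Agent.Helper72.W3.M_Cnt
import Pool.Agent.Helper74.T3E.M_BASTE
import Pool.Agent.Helper76.W3.M_Itr
import Pool.Agent.Helper78.W3.M_Cert
import Pool.Agent.Helper78.W3.M_Ex
import Pool.Agent.Helper78.W3.M_Lifp
import Pool.Agent.Helper78.W3.M_Trm
import Pool.Agent.Helper83.W3.M_HkB
import Pool.Agent.Helper84.T3E.M_COREOFE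
import Pool.Agent.Helper84.T3E.M_HOM
import Pool.Agent.Helper86.W3.M_Bal
import Pool.Agent.Helper86.W3.M_P4
import Pool.Agent.Helper86.W3.M_Prd
import Pool.Agent.Helper86.W3.M_Sur
import Pool.Agent.Helper87.T3E.M_X2E
import Pool.Agent.Helper9.W3.M_Com
import Pool.Agent.Helper9.W3.M_Lvl
import Pool.Agent.Helper90.W3.M_B3b
import Pool.Agent.Helper92.T3E.M_TRIE
import Pool.Agent.Helper94.W3.M_A3T
import Pool.Agent.Helper96.T3E.M_CFM
import Pool.Agent.Helper98.W3.M_PlA
import Pool.Agent.Helper99.T3E.M_RA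
import Pool.Agent.Helper99.W3.M_Bb

/-!
# Project T3E: the core for even characters (assembly)
-/

set_option autoImplicit false

namespace Pool.Agent.Helper28.T3E

open Pool.Agent.Helper14.CV Pool.Agent.Helper14.W3 Pool.Agent.Helper78.W3 Pool.Agent.Helper14.T3

theorem coreE (ube : StUBE) : StCOREE := by
  have n1 := Pool.Agent.Helper10.CV.hN1
  have nrm := Pool.Agent.Helper47.W3.hNrm
  have far := Pool.Agent.Helper38.CV.hFar
  have hk := Pool.Agent.Helper7.W3.hHk n1
  have hkS := Pool.Agent.Helper53.W3.hHkS hk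
  have hkW := Pool.Agent.Helper16.W3.hHkW hk hkS
  have hkT := Pool.Agent.Helper29.W3.hHkT hk hkS
  have com := Pool.Agent.Helper9.W3.hCom
  have lvl := Pool.Agent.Helper9.W3.hLvl nrm
  have plA := Pool.Agent.Helper98.W3.hPlA
  have plU := Pool.Agent.Helper7.W3.hPlU
  have edg := Pool.Agent.Helper36.W3.hEdg plA plU
  have trm := Pool.Agent.Helper78.W3.hTrm
  have tre := Pool.Agent.Helper10.W3.hTre plA edg
  have rel := Pool.Agent.Helper63.W3.hRel tre
  have ex := Pool.Agent.Helper78.W3.ExM.hEx trm plA Pool.Agent.Helper55.CV.hFex far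
  have uni := Pool.Agent.Helper32.W3.hUni tre edg far
  have hkB := Pool.Agent.Helper83.W3.hHkB hk
  have hkF := Pool.Agent.Helper69.W3.hHkF hkB plA edg
  have hk2 := Pool.Agent.Helper36.W3.hHk2 hkF tre trm
  have hk7 : ∀ i, S3Hk7 i := by
    intro i
    fin_cases i
    · exact Pool.Agent.Helper43.W3.hHk7_0 hkF tre trm
    · exact Pool.Agent.Helper47.W3.hHk7_1 hkF tre trm
    · exact Pool.Agent.Helper47.W3.R2.hHk7_2 hkF tre trm
  have low0 := Pool.Agent.Helper29.W3.hLow0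
  have prd := Pool.Agent.Helper86.W3.hPrd low0
  have subA := Pool.Agent.Helper16.W3.hSubA low0 prd
  have subB := Pool.Agent.Helper25.W3.hSubB low0 prd
  have nf := Pool.Agent.Helper6.W3.hNf low0 subA subB
  have exp := Pool.Agent.Helper24.W3.hExp low0 nf
  have lw1 := Pool.Agent.Helper37.W3.hLw1 low0 nf exp
  have ld := Pool.Agent.Helper7.W3.hLd trm low0 nf exp lw1 Pool.Agent.Helper78.W3.hCert
  have bb := Pool.Agent.Helper99.W3.hBb low0
  have sur := Pool.Agent.Helper86.W3.hSur low0 lw1 bb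
  have led := Pool.Agent.Helper62.W3.hLed low0 lw1 bb sur
  -- the twisted path
  have ra := Pool.Agent.Helper99.T3E.hRA
  have rb := Pool.Agent.Helper6.T3E.hRB
  have ind := Pool.Agent.Helper60.T3E.hIND
  have hom := Pool.Agent.Helper84.T3E.hHOM ra rb ind
  have qua := Pool.Agent.Helper42.T3E.hQUA
  have chs := Pool.Agent.Helper25.T3E.hCHS
  have cfm := Pool.Agent.Helper96.T3E.hCFM
  have x2 : StX2 := Pool.Agent.Helper87.T3E.hX2E bb edg rel qua ind hom cfm chs
  have it : StIT := Pool.Agent.Helper34.T3E.hITRE x2 rel hkB hk2 hk7 trm low0 lw1 ld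
  have tr : StTR := Pool.Agent.Helper92.T3E.hTRIE it low0 bb led ex
  have li : StLI := Pool.Agent.Helper7.T3E.hLIFE rel (Pool.Agent.Helper78.W3.LifpM.hLifp trm) ex uni
  have lbe := Pool.Agent.Helper2.T3E.hLBEOF tr li Pool.Agent.Helper71.T3E.hUNBE
    Pool.Agent.Helper53.T3E.hCNTE
  have sg : StSG := Pool.Agent.Helper2.T3E.hSGNE hkS hkW hkT chs
  have de : StDE := Pool.Agent.Helper16.T3E.hDECTE sg com nrm lvl
  have ba : StBA := Pool.Agent.Helper74.T3E.hBASTE ind hkS chs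
  exact Pool.Agent.Helper84.T3E.hCOREOFE de ba ube lbe

end Pool.Agent.Helper28.T3E
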