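import Pool.Agent.Helper14.T3.Defs
import Pool.Agent.Helper28.T3.Defs

/-!
# Project T3E: quadratic twists of the newforms of level `3^n` by EVEN characters. Definitions

`D` is squarefree, `D = 5` modulo `12`, `χ(a) = jacobiSym a D` (primitive, even, `χ(3) = -1`), and `3` does not divide
`SE D = ∑_{a < D/3} χ(a)` (which is `h(-3D)/2`). The twisted path (`evT`, `evTb` of project T3) is fixed by `*` and sent to `-(-1)^n` times
itself by `W`, so it sees the newforms of root number `wE n = (-1)^n`.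
-/

set_option autoImplicit false

namespace Pool.Agent.Helper28.T3E

open Pool.Agent.Helper14.CV (Homog EqC act Tl)
open Pool.Agent.Helper14.W3 Pool.Agent.Helper78.W3
open Pool.Agent.Helper76.TX (eX Sg)
open Pool.Agent.Helper14.TT (eXb)
open Pool.Agent.Helper14.T3

/-- `∑_{a < D/3} χ(a)`. -/
def SE (D : ℕ) : ℤ := ∑ a ∈ (Finset.range D).filter (fun a => 3 * a < D), jacobiSym (a : ℤ) D

/-- The conductors of the theorem. -/
def OkE (D : ℕ) : Prop := 1 < D ∧ Squarefree D ∧ D % 12 = 5 ∧ ¬ (3 : ℤ) ∣ SE D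

/-- The root number of the newforms of level `3^n` seen by the characters. -/
def wE (n : ℕ) : ℤ := (-1) ^ n

/-- The bound for the dimension of the new symbols of level `3^n` with `W = -(-1)^n`, `* = +1`. -/
def de3 (n : ℕ) : ℕ :=
  if n ≤ 3 then 0
  else if n % 2 = 0 then 2 * 9 ^ (n / 2 - 2)
  else 2 * 3 ^ (n / 2 - 2) * (3 ^ (n / 2 - 1) - 1)

/-- `∑_{m ≤ n} de3 m`. -/
def DE3 (n : ℕ) : ℕ := ∑ m ∈ Finset.range (n + 1), de3 m

/-- The number of `0 < j < |d|/3` with `b j` modulo `|d|` in `(0, |d|/3)` or `(2|d|/3, |d|)`. -/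
def Ne (b d : ℤ) : ℤ :=
  (((Finset.range d.natAbs).filter fun j : ℕ => 0 < j ∧ 3 * j < d.natAbs ∧
    (3 * ((b * j) % (d.natAbs : ℤ)) < d.natAbs ∨ 2 * (d.natAbs : ℤ) < 3 * ((b * j) % (d.natAbs : ℤ)))).card : ℤ)

/-- A homomorphism on the group of the matrices `(a b; c d)`, `3 ∣ b`, `3 ∣ c` (zero at `(1 3; 0 1)`, `(1 0; 3 1)`, `1` at `(-2 3; -3 4)`),
as a function of the second column. -/
def nu (b d : ℤ) : ℤ :=
  if d.natAbs % 3 = 1 then 3 * Ne b d - (2 * (d.natAbs : ℤ) - 2) / 3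
  else -3 * Ne b d + (2 * (d.natAbs : ℤ) - 7) / 3

/-- `(a² - 1)/3`. -/
def uu (a : ℤ) : ℤ := (a ^ 2 - 1) / 3

/-- `-log(a)/3` modulo `9`, `a` prime to `3`. -/
def ze (a : ℤ) : ZMod 9 := 4 * (uu a : ZMod 9) + 3 * (uu a : ZMod 9) ^ 2 + 3 * (uu a : ZMod 9) ^ 3

/-- The embedding of `ZMod 3` in `ZMod 9`, `c ↦ 3c`. -/
def th (c : ZMod 3) : ZMod 9 := 3 * ((c.val : ℕ) : ZMod 9)

end Pool.Agent.Helper28.T3E
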