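import Pool.Agent.Helper28.T3E.Defs

/-!
# Project T3E: the twisted path on symbols of degree at most 2, even characters

The matrix `(a 3b; 3c d)`, `a d - 9 b c = 1`, is written `(a, b, c, d)`; `A = (1,1,0,1)`, `B = (1,0,1,1)`, `C = (-2,1,-1,4)` (fixes the cusp `1`),
`C2 = (4,1,-1,-2)` (fixes the cusp `-1`, that is the vector `(-1, 1)`). Product: `(aa'+9bc', ab'+bd', ca'+dc', dd'+9cb')`.
-/

set_option autoImplicit false

namespace Pool.Agent.Helper28.T3E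

open Pool.Agent.Helper14.CV (Homog EqC act Tl)
open Pool.Agent.Helper14.W3 Pool.Agent.Helper78.W3
open Pool.Agent.Helper76.TX (eX Sg)
open Pool.Agent.Helper14.TT (eXb)
open Pool.Agent.Helper14.T3

/-- RA. Elementary relations of `nu`, `b d : ℤ` coprime, `3 ∣ b` (so `3 ∤ d`). (1), (2) clear (`j` fixed: `-x` modulo `d`; `|d|`). (3) clear. (4) By (1), (2) let `b > 0` (`b = 0` is trivial).
Floor formula: for `d > 0` coprime to `b`, `3 ∣ b`: the `j` with `0 < 3j < d` and `b j` modulo `d` in `(0, d/3)` are those with `k d/b < j < (3k+1) d/(3b)`, `0 ≤ k < b/3`; those with `b j` modulo `d` in `(2d/3, d)` the ones with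
`(3k+2) d/(3b) < j < (k+1) d/b`; no end point except `0` is an integer (for `k d/b`, `0 < k < b`, and `(3k+1)d/(3b)` because `3 ∤ (3k+1) d`; `(k+1) d/b` for `k + 1 = b/3` is `d/3`). So
`Ne b d = E(d)`, `E(d) = ∑_{k < b/3} (⌊(3k+1)d/(3b)⌋ - ⌊kd/b⌋ + ⌊(k+1)d/b⌋ - ⌊(3k+2)d/(3b)⌋)`, `E(d + 3b) = E(d) + 2b/3` for all integers `d`, and `E(-d) = -1 - E(d)` (`⌊-x⌋ = -⌊x⌋ - 1` unless `x` is an integer, which
happens only for `k d/b` with `k = 0`). With `|d| ≡ 1`: `nu = 3E - (2d-2)/3`, `|d| ≡ 2`: `nu = -3E + (2d-7)/3` for `d > 0`; hence for `d, d + 3b` of the same sign (4) is clear (the class modulo 3 does not change);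
for `d < 0 < d + 3b`: `|d| = -d` has the other class, `Ne b |d| = E(-d) = -1 - E(d)`: `|d| ≡ 2`: `-3(-1-E(d)) + (-2d-7)/3 = 3E(d) - (2d-2)/3`, the same formula as for the class `1` of `d + 3b`; in the same way for the other class. -/
def StRA : Prop := ∀ b d : ℤ, IsCoprime b d → 3 ∣ b →
  nu (-b) d = nu b d ∧ nu b (-d) = nu b d ∧ nu (b + 3 * d) d = nu b d ∧ nu b (d + 3 * b) = nu b d

/-- RB. The third relation of `nu`. Proof. Put `e = d - b` (so `e ≡ d` modulo 3, coprime to `d`, `3 ∤ e`). `b j ≡ -e j` modulo `d`, so `Ne b d = Ne e d` (symmetry), and `Ne (b + 3e) (d + 3e) = Ne e (d + 3e)` since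
`b + 3e = (d + 3e) - e`. So the claim is `nu' e (d + 3e) = nu' e d + 1` where `nu'` is the same expression with `e` prime to 3, `e ≡ d` modulo 3. `e = 0` is impossible (then `b = d = ±1`). Changing both signs of `b, d` changes the sign of `e`,
so let `e > 0`. For `d > 0` the `j` with `0 < 3j < d`, `e j` modulo `d` in `(0, d/3)`: `k d/e < j < (3k+1)d/(3e)`, `0 ≤ 3k < e`; in `(2d/3, d)`: `(3k+2)d/(3e) < j < (k+1)d/e`, `3k + 3 ≤ e` (if `e = 3K+1` or `3K+2`: `k ≤ K`, and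
`k ≤ K - 1`; for `e = 3K+1` the last interval of the first kind ends at `d/3`, for `e = 3K+2` the interval of the second kind with `k = K` starts at `d/3`). As in RA this gives a sum of floors `E(d)` with `E(d+3e) = E(d) + (K+1) + K` and
`E(-d) = -1 - E(d)`, and `3(2K+1) = 2e + 1` for `e ≡ 1`, `2e - 1` for `e ≡ 2`: for `d > 0` and class `1`: `nu(d+3e) - nu(d) = (2e + 1) - 2e = 1`, class `2`: `-(2e - 1) + 2e = 1`. Signs of `d`, `d + 3e` as in RA. -/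
def StRB : Prop := ∀ b d : ℤ, IsCoprime b d → 3 ∣ b →
  nu (b + 3 * (d - b)) (d + 3 * (d - b)) = nu b d + 1

/-- IND. The group is generated by `-1, A, B, C, C2`; left and right version. Proof of the left version: induction on `|3b| + |d|`, then on `|c|`. `b = 0`: `a = d = ±1`, use `B^(±1)` on the left (`c ↦ c ± a`). `b ≠ 0`: with `β = 3b`:
if `2|β| > 3|d|` one of `A^(±1)` (`β ↦ β ± 3d`) makes `|β|` smaller; if `2|d| > 3|β|` one of `B^(±1)` (`d ↦ d ± 3β`) makes `|d|` smaller; otherwise `2|d| ≤ 3|β|`, `2|β| ≤ 3|d|`: if `β d > 0` one of `C^(±1)` (`(β, d) ↦ (β ± 3e, d ± 3e)`, `e = d - β ≠ 0`)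
makes `|β| + |d|` smaller (`β, d > 0`, `e > 0`: `|β - 3e| < β` as `3e ≤ 3β/2`, `0 ≤ d - 3e < d`; the other cases in the same way), if `β d < 0` one of `C2^(±1)` (`(β, d) ↦ (β ± 3(β+d), d ∓ 3(β+d))`). The right version by inversion
`(a,b,c,d)⁻¹ = (d,-b,-c,a)`. -/
def StIND : Prop := ∀ P : ℤ → ℤ → ℤ → ℤ → Prop, P 1 0 0 1 →
  ((∀ a b c d, a * d - 9 * b * c = 1 → P a b c d → P (-a) (-b) (-c) (-d) ∧
    P (a + 9 * c) (b + d) c d ∧ P (a - 9 * c) (b - d) c d ∧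
    P a b (c + a) (d + 9 * b) ∧ P a b (c - a) (d - 9 * b) ∧
    P (-2 * a + 9 * c) (-2 * b + d) (-a + 4 * c) (-9 * b + 4 * d) ∧
    P (4 * a - 9 * c) (4 * b - d) (a - 2 * c) (9 * b - 2 * d) ∧
    P (4 * a + 9 * c) (4 * b + d) (-a - 2 * c) (-9 * b - 2 * d) ∧
    P (-2 * a - 9 * c) (-2 * b - d) (a + 4 * c) (9 * b + 4 * d)) →
    ∀ a b c d, a * d - 9 * b * c = 1 → P a b c d) ∧
  ((∀ a b c d, a * d - 9 * b * c = 1 → P a b c d → P (-a) (-b) (-c) (-d) ∧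
    P a (a + b) c (9 * c + d) ∧ P a (b - a) c (d - 9 * c) ∧
    P (a + 9 * b) b (c + d) d ∧ P (a - 9 * b) b (c - d) d ∧
    P (-2 * a - 9 * b) (a + 4 * b) (-2 * c - d) (9 * c + 4 * d) ∧
    P (4 * a + 9 * b) (-a - 2 * b) (4 * c + d) (-9 * c - 2 * d) ∧
    P (4 * a - 9 * b) (a - 2 * b) (4 * c - d) (9 * c - 2 * d) ∧
    P (-2 * a + 9 * b) (-a + 4 * b) (-2 * c + d) (-9 * c + 4 * d)) →
    ∀ a b c d, a * d - 9 * b * c = 1 → P a b c d)

/-- HOM (from RA, RB, IND). `nu` is a homomorphism. Proof: left induction on the first factor `(a,b,c,d)` for fixed second factor: `nu` of the product with the second column `(3(ab'+bd'), dd'+9cb')`. `-1`: RA. `A` on the left: `(β, δ) ↦ (β + 3δ, δ)`,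
`B`: `(β, δ + 3β)`, no change (RA, also for the inverses, replacing `(β, δ)`); `C`: `(β + 3(δ-β), δ + 3(δ-β))`, change `+1` (RB); `C⁻¹`: `-1`; `C2`: `(β + 3(β+δ), δ - 3(β+δ))`, change `-1` (RB for `-β` and RA), the same changes for
both sides of the claim. -/
def StHOM : Prop := ∀ a b c d a' b' c' d' : ℤ, a * d - 9 * b * c = 1 → a' * d' - 9 * b' * c' = 1 →
  nu (3 * (a * b' + b * d')) (d * d' + 9 * c * b') = nu (3 * b) d + nu (3 * b') d'

/-- QUA. Functions of degree at most `2` are quadratic polynomials in the residues modulo 3 (`r, s ≥ 1`). Proof: Newton expansion (`S3Bb`), `bb3 i j`, `i + j ≤ 2`, are `(x.val choose i)(y.val choose j)` modulo 3, `C(n, 2) = 2n² - 2n` in `ZMod 3`, and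
for `F ∈ Wd3 2` the other coefficients vanish; the coefficient of `x y` is `(dX dY F)(0,0)`. Conversely (second part) not needed. -/
def StQUA : Prop := S3Bb → ∀ (r s : ℕ) (F : Fn3 (3 ^ r) (3 ^ s)), 1 ≤ r → 1 ≤ s → F ∈ Wd3 2 →
  ∃ k0 k1 k2 k3 k5 : ZMod 3, ∀ m n : ℤ, F (m : ZMod (3 ^ r)) (n : ZMod (3 ^ s)) =
    k0 + k1 * (m : ZMod 3) + k2 * (n : ZMod 3) + k3 * (m : ZMod 3) ^ 2 +
      ((Qo : Module.End (ZMod 3) (Fn3 (3 ^ r) (3 ^ s))) F) 0 0 * (m : ZMod 3) * (n : ZMod 3) +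
      k5 * (n : ZMod 3) ^ 2

/-- CFM (from QUA, IND, HOM, REL, EDG). The values of an even symbol of degree at most `2` at the cusps `γ∞`. Write `F_f = pf H f`, `q = (Qo F_0)(0,0)`. Proof. `F_f(-x,-y)` for `f = 0` is `F_0`, and `F_2(x,y) = F_1(-x,-y)` (`*` maps the path `g{e,∞}` to `g*{-e,∞}`, `g* = (a,-b,-c,d)`
of coordinates `(-x,-y)`; EDG). So by QUA, for all integers `F_0(x,y) = k0 + k3 x² + q x y + k5 y²`, `F_1(x,y) = l0 + l1 x + l2 y + l3 x² + l4 xy + l5 y²`, `F_2(x,y) = F_1(-x,-y)` (residues modulo 3), and REL, whose translations are modulo 3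
`(x,y) ↦ (x,y+1)`, `(x+1,y-1)`, `(x+2,y-1)`, reads `F_0(x,y) - F_0(x,y+1) - F_1(x,y) + F_1(x+1,y-1) + F_2(x,y+1) - F_2(x+2,y-1) = 0`: comparing the coefficients of `x` and `y` (or evaluating at points) gives `l3 + l4 = q`, `l4 + l5 = k5`.
The claim with `p1 = k5` and a suitable `p2`: put `V(a,b,c,d) = q (nu(3b,d) - ze a) + th(k5 c² + p2 uu a)`. Right induction (IND). `1`: `0`. `-1`: homogeneity, all terms are even. `A`: the first column does not change, `nu` does not change (HOM, `nu 3 1 = 0`). `B`: `H(γB∞) - H(γ∞) = F_0(γB) - F_0(γ)`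
(`B` fixes `0`), coordinates `x = b/a`, `y = c/d`, and `(x, y+1)` for `γB`: equal to `q x + k5 (2y+1)`; on the other side `nu` does not change, `ze(a + 9b) = ze a - 3 a b`, `uu(a+9b) ≡ uu a` modulo 3, `(c+d)² - c² = 2cd + 1` modulo 3 (`a² = d² = 1` modulo 3; `x = ab`, `y = cd`).
`C`: `H(γC∞) - H(γ∞) = F_1(γC) - F_1(γ)`, `(x,y) ↦ (x+1, y-1)` modulo 3: `l1 - l2 + l3(2x+1) + l4(-x+y-1) + l5(-2y+1) = -q x + k5 y + const` (with the two relations), the other side: `nu` changes by `1` (`nu 3 4 = 1`), `ze(-2a-9b) = ze a + 1 + 3ab`, so `q(1 - 1 - 3ab)`, that is `-q x`;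
`(2c+d)² - c² = 3c² + 4cd + d² ≡ y + 1`; `uu(2a+9b) ≡ uu a + 1`: choose `p2` such that the constants agree. `C2`: `H(γC2∞) - H(γ∞) = F_2(γC2) - F_2(γ)`, `(x,y) ↦ (x + 1, y + 1)` (`C2 = (4,1,-1,-2)`, `1/4 = 1`, `-1/(-2) = 2⁻¹ = 2`: take the values `x' = b'/a'`, `y' = c'/d'` literally), follows from the formula for `C⁻¹`
and evenness: conjugation by `*` maps `C⁻¹` to `C2`. Inverses: apply the same formulas to `γC⁻¹`. -/
def StCFM : Prop := S3Bb → S3Edg → S3Rel → StQUA → StIND → StHOM → ∀ (r s : ℕ) (H : ℤ → ℤ → ZMod 3), 1 ≤ r → 1 ≤ s →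
  Sym3 (r + 1) (s + 1) H → (∀ p q, H (-p) q = H p q) →
  (∀ f, (pf H f : Fn3 (3 ^ r) (3 ^ s)) ∈ Wd3 2) →
  ∃ p1 p2 : ZMod 3, ∀ a b c d : ℤ, a * d - 9 * b * c = 1 →
    th (H a (3 * c) - H 1 0) =
      ((((Qo : Module.End (ZMod 3) (Fn3 (3 ^ r) (3 ^ s))) (pf H 0)) 0 0).val : ZMod 9) *
        ((nu (3 * b) d : ZMod 9) - ze a) + th (p1 * (c : ZMod 3) ^ 2 + p2 * (uu a : ZMod 3))

/-- CHS. Character sum: `∑_u χ(u) Ne(u) = 2 S²`. Proof. `Ne u D` counts the `j`, `0 < 3j < D`, with `u j` modulo `D` in `I = (0, D/3) ∪ (2D/3, D)`. Exchange the sums. If `j` is prime to `D`, `v = u j` runs over all residues, `χ(u) = χ(v) χ(j)`, and the sum over `u` is `χ(j) ∑_{v ∈ I} χ(v) = χ(j) 2S`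
(`χ(D - v) = χ(v)`, `D = 1` modulo 4). If `g = gcd(j, D) > 1`, the condition depends only on `u` modulo `D/g`, and the sum of `χ` over a class modulo `D/g` is `0`: `χ = (·/g)(·/(D/g))` (`jacobiSym.mul_right`), `D` squarefree, the class runs through all residues modulo `g`, and `∑_{v<g} (v/g) = 0` for
odd squarefree `g > 1`. So the total is `2S ∑_{j < D/3} χ(j) = 2S²`. Second part: `χ` has sum `0` over a period, and `∑_{a<D} χ(a) f(m a) = χ(m) ∑ χ(u) f(u)` for `m` prime to `D` and `f` of period `D`. -/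
def StCHS : Prop := ∀ D : ℕ, 1 < D → Squarefree D → D % 12 = 5 →
  (∑ u ∈ Finset.range D, jacobiSym (u : ℤ) D * Ne (u : ℤ) D = 2 * SE D ^ 2) ∧
  (∑ u ∈ Finset.range D, jacobiSym (u : ℤ) D = 0) ∧
  (∀ m : ℤ, IsCoprime m (D : ℤ) → ∑ a ∈ Finset.range D, jacobiSym (a : ℤ) D * Ne (m * a) D =
    jacobiSym m D * (2 * SE D ^ 2)) ∧
  jacobiSym 3 D = -1 ∧ jacobiSym (-1) D = 1

/-- X2E (from CFM with its hypotheses, CHS). The twisted path on symbols of degree at most `2`. Proof. `H = G + G∘*` (`H p q = G p q + G (-p) q`) is a symbol (`*` normalises the group), even, `pf H 0 (x,y) = F_0(x,y) + F_0(-x,-y)`, `pf H 1 (x,y) = F_1(x,y) + F_2(-x,-y)`, `pf H 2 (x,y) = F_2(x,y) + F_1(-x,-y)` (EDG, as in X3 of project TT and `M_E1`), all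
of degree at most `2` (QUA for the values; `Wd3 2` is stable under `(x,y) ↦ (-x,-y)`: `oN`, LW1 `S3Lw1`, or from the explicit polynomials), `(Qo (pf H 0))(0,0) = 2 (Qo F_0)(0,0)`, `eXb H = 2 eXb G` (`G(-m a, D) = G(m(D - a), D)`, translation by `m` is in the group and fixes `∞`; `χ(-a) = χ(a)`).
For `a` prime to `D` choose `(α, b, c, D)` with `3b = m a` (`m = 3^(r+1)`, so `b = 3^r a`, `3 ∣ b`), `3 ∣ c`, `α D - 9bc = 1` (`c` solves `3 m a c ≡ -1` modulo `D`, `c ≡ 0` modulo 3). `H(ma, D) = H(γ0) = H(γ∞) - F_0(γ)`, `F_0(γ) = F_0(0,0)` (coordinates divisible by 3, QUA). `α D ≡ 1` modulo `27` (even `81`), so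
`uu α` modulo 9 and `ze α` do not depend on `a`. By CFM and `nu (m a) D = -3 Ne (m a) D + (2D - 7)/3` (`D ≡ 2` modulo 3): `th(H(ma,D) - H(1,0)) = -3 q_H Ne(ma, D) + K`, `K` independent of `a`, hence `H(ma,D) - H(1,0) = -q_H Ne(ma,D) + K'` in `ZMod 3`. By CHS `eXb H = -q_H χ(m) 2 S² = q_H χ(m) S²`, `χ(m) = (-1)^(r+1)`. -/
def StX2E : Prop := S3Bb → S3Edg → S3Rel → StQUA → StIND → StHOM → StCFM → StCHS → ∀ (D r s : ℕ) (G : ℤ → ℤ → ZMod 3), 1 < D → Squarefree D →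
  D % 12 = 5 → 1 ≤ r → 1 ≤ s → Sym3 (r + 1) (s + 1) G → (∀ f, (pf G f : Fn3 (3 ^ r) (3 ^ s)) ∈ Wd3 2) →
  eXb D (3 ^ (r + 1)) G = (-1) ^ (r + 1) * (SE D : ZMod 3) ^ 2 *
    ((Qo : Module.End (ZMod 3) (Fn3 (3 ^ r) (3 ^ s))) (pf G 0)) 0 0

/-- TDS. `TD(3D) = -6 D S(D)`, `D = 5` modulo `12`, squarefree, `> 1`. Proof. `(a/(3D)) = (a/3)(a/D)`. For `0 ≤ u < D` the three numbers `u, u + D, u + 2D` contribute `χ(u) D ((u+D)/3) + 2 χ(u) D ((u+2D)/3)` plus `χ(u) u` times the sum of `(·/3)` over all classes, which is `0`; since `D ≡ 2`: this is `χ(u) D` if `u ≢ 1`,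
`-2 χ(u) D` if `u ≡ 1` modulo 3. So `TD(3D) = D ∑ χ - 3D ∑_{u ≡ 1} χ(u) = -3D ∑_{u ≡ 1 (3)} χ(u)`. The `u ≡ 1` modulo 3, `0 < u < D`, are the `3j - D`, `D < 3j < 2D` (`D ≡ 2`), `χ(3j - D) = χ(3) χ(j) = -χ(j)`, and `∑_{D < 3j < 2D} χ(j) = -2S` (total sum `0`, symmetry `j ↦ D - j`). So `∑_{u≡1} χ(u) = 2S`. -/
def StTDS : Prop := ∀ D : ℕ, 1 < D → Squarefree D → D % 12 = 5 →
  Pool.Agent.Helper28.T3.TD (3 * D) = -6 * (D : ℤ) * SE D

end Pool.Agent.Helper28.T3E
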